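import Pool.Agent.MWGN.StmtsB

/-!
# Squad MWGN (problem MP_23468a_al), row CLO: the closure properties
-/

namespace Pool.Agent.MWGN.H88

open Pool.Agent.Helper14_MV Pool.Agent.Helper2_MV Pool.Agent.MWGN
open Pool.Agent.MWK (pre Gw)

theorem sub_gh (g h : ℕ → List ℕ) : ∀ N i, i < N → (g i ++ h i).Sublist (gh g h N) := by
  intro N
  induction N with
  | zero => intro i hi; omega
  | succ N ih =>
    intro i hi
    rw [gh_succ]
    rcases Nat.lt_or_ge i N with h' | h'
    · exact (ih i h').trans (List.sublist_append_left _ _)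
    · have : i = N := by omega
      subst this
      exact List.sublist_append_right _ _

theorem cnt {g h : ℕ → List ℕ} {N : ℕ} (p U V F X Y H : List ℕ)
    (hg : ∀ i < N, ∀ c ∈ g i, c ∈ H) (hh : ∀ i < N, ∀ c ∈ h i, 2 ≤ (h i).count c) :
    ∀ c ∈ gh g h N, 2 ≤ (p ++ (U ++ (V ++ (F ++ (X ++ (gh g h N ++ (Y ++ H))))))).count c := by
  intro c hc
  simp only [List.count_append]
  obtain ⟨i, hi, h1⟩ := mem_gh.1 hc
  rcases h1 with h1 | h1
  · have a := List.count_pos_iff.2 hc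
    have b := List.count_pos_iff.2 (hg i hi c h1)
    omega
  · have a := (sub_gh g h N i hi).count_le c
    rw [List.count_append] at a
    have b := hh i hi c h1
    omega

theorem dbl (A : List ℕ) : ∀ c ∈ A ++ A, 2 ≤ (A ++ A).count c := by
  intro c hc
  rw [List.count_append]
  have : 0 < A.count c := List.count_pos_iff.2 (by simpa using hc)
  omega

theorem clo (h1 : ForStmt) (h2 : WcxStmt) (h3 : SpxStmt) (h4 : Mc1Stmt) (h5 : Mc2Stmt)
    (h6 : Mc3Stmt) : CloStmt := by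
  intro τ m hτ f p q
  obtain ⟨f1, f2⟩ := h1 τ m hτ f
  -- the conditions without the special orders
  have K0x : ∀ p' X Y F G H U V : List ℕ, ((U = X ∧ V = Y) ∨ (U = Y ∧ V = X)) →
      ∀ w w' : List ℕ, w = p' ++ (U ++ (V ++ (F ++ (X ++ (G ++ (Y ++ H)))))) →
        w' = p' ++ (V ++ (U ++ (F ++ (X ++ (G ++ (Y ++ H)))))) → (∀ c ∈ G, 2 ≤ w.count c) →
          K0 τ m w → K0 τ m w' := by
    intro p' X Y F G H U V hUV w w' hw hw' hG hK
    have a := h2 N1 τ m m (by omega) p' X Y F G H U V hUV w w' hw hw' hG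
    have b := h2 (N2 m) τ m (m + 1) le_rfl p' X Y F G H U V hUV w w' hw hw' hG
    exact ⟨a.1 hK.c1, a.2 hK.t1, b.1 hK.c2, b.2 hK.t2⟩
  -- the form of the words, exchange of `f 0`, `f 1`
  have FA : ∀ o' : Bool, ∃ G H : List ℕ,
      p ++ (w0 τ m true o').flatMap f ++ q =
        p ++ (f 0 ++ (f 1 ++ (f 2 ++ (f 0 ++ (G ++ (f 1 ++ H)))))) ∧
      p ++ (w0 τ m false o').flatMap f ++ q =
        p ++ (f 1 ++ (f 0 ++ (f 2 ++ (f 0 ++ (G ++ (f 1 ++ H)))))) ∧
      (∀ c ∈ G, 2 ≤ (p ++ (w0 τ m true o').flatMap f ++ q).count c) ∧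
      (∀ c ∈ G, 2 ≤ (p ++ (w0 τ m false o').flatMap f ++ q).count c) := by
    intro o'
    obtain ⟨H, e, hf, -⟩ := f1 o'
    have eT := e true
    have eF := e false
    rw [if_pos rfl] at eT
    rw [if_neg (by simp)] at eF
    have eT' : p ++ (w0 τ m true o').flatMap f ++ q = p ++ (f 0 ++ (f 1 ++ (f 2 ++ (f 0 ++
        (gh (fun i => if i < m then f (N1.L i) else if decide (i = m) = o' then f (N1.L m) else
          f (N1.L (m + 1)))
        (fun i => if i < m then f (N1.C i) ++ f (N1.C i) else []) (m + 2) ++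
          (f 1 ++ (H ++ q))))))) := by
      rw [eT]
      simp only [List.append_assoc]
    have eF' : p ++ (w0 τ m false o').flatMap f ++ q = p ++ (f 1 ++ (f 0 ++ (f 2 ++ (f 0 ++
        (gh (fun i => if i < m then f (N1.L i) else if decide (i = m) = o' then f (N1.L m) else
          f (N1.L (m + 1)))
        (fun i => if i < m then f (N1.C i) ++ f (N1.C i) else []) (m + 2) ++
          (f 1 ++ (H ++ q))))))) := by
      rw [eF]
      simp only [List.append_assoc]
    have hgH : ∀ i < m + 2, ∀ c ∈ (fun i => if i < m then f (N1.L i) else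
        if decide (i = m) = o' then f (N1.L m) else f (N1.L (m + 1))) i, c ∈ H ++ q := by
      intro i hi c hc
      have key : ∀ j ≤ m + 1, c ∈ f (N1.L j) → c ∈ H ++ q := by
        intro j hj hc
        obtain ⟨H1, H2, rfl⟩ := hf j hj
        simp [hc]
      simp only at hc
      split_ifs at hc
      · exact key i (by omega) hc
      · exact key m (by omega) hc
      · exact key (m + 1) le_rfl hc
    have hhh : ∀ i < m + 2, ∀ c ∈ (fun i => if i < m then f (N1.C i) ++ f (N1.C i) else []) i,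
        2 ≤ ((fun i => if i < m then f (N1.C i) ++ f (N1.C i) else []) i).count c := by
      intro i hi c hc
      simp only at hc ⊢
      split_ifs at hc ⊢
      · exact dbl _ c hc
      · simp at hc
    refine ⟨_, _, eT', eF', ?_, ?_⟩
    · rw [eT']
      exact cnt _ _ _ _ _ _ _ hgH hhh
    · rw [eF']
      exact cnt _ _ _ _ _ _ _ hgH hhh
  -- exchange of the two lights
  have FB : ∀ o : Bool, ∃ P F G H : List ℕ,
      p ++ (w0 τ m o true).flatMap f ++ q =
        P ++ (f (N1.L m) ++ (f (N1.L (m + 1)) ++ (F ++ (f (N1.L m) ++ (G ++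
          (f (N1.L (m + 1)) ++ H)))))) ∧
      p ++ (w0 τ m o false).flatMap f ++ q =
        P ++ (f (N1.L (m + 1)) ++ (f (N1.L m) ++ (F ++ (f (N1.L m) ++ (G ++
          (f (N1.L (m + 1)) ++ H)))))) ∧
      (∀ c ∈ G, 2 ≤ (p ++ (w0 τ m o true).flatMap f ++ q).count c) ∧
      (∀ c ∈ G, 2 ≤ (p ++ (w0 τ m o false).flatMap f ++ q).count c) := by
    intro o
    obtain ⟨P, F, H, e, hf, -⟩ := f2 o
    have eT := e true
    have eF := e false
    rw [if_pos rfl] at eT
    rw [if_neg (by simp)] at eF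
    have eT' : p ++ (w0 τ m o true).flatMap f ++ q = (p ++ P) ++ (f (N1.L m) ++
        (f (N1.L (m + 1)) ++ (F ++ (f (N1.L m) ++ (gh (fun i => f ((N2 m).L i))
        (fun i => if i < m + 1 then f ((N2 m).C i) ++ f ((N2 m).C i) else []) (m + 2) ++
          (f (N1.L (m + 1)) ++ (H ++ q))))))) := by
      rw [eT]
      simp only [List.append_assoc]
    have eF' : p ++ (w0 τ m o false).flatMap f ++ q = (p ++ P) ++ (f (N1.L (m + 1)) ++
        (f (N1.L m) ++ (F ++ (f (N1.L m) ++ (gh (fun i => f ((N2 m).L i))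
        (fun i => if i < m + 1 then f ((N2 m).C i) ++ f ((N2 m).C i) else []) (m + 2) ++
          (f (N1.L (m + 1)) ++ (H ++ q))))))) := by
      rw [eF]
      simp only [List.append_assoc]
    have hgH : ∀ i < m + 2, ∀ c ∈ (fun i => f ((N2 m).L i)) i, c ∈ H ++ q := by
      intro i hi c hc
      obtain ⟨H1, H2, rfl⟩ := hf i (by omega)
      simp only at hc
      simp [hc]
    have hhh : ∀ i < m + 2, ∀ c ∈ (fun i => if i < m + 1 then f ((N2 m).C i) ++ f ((N2 m).C i)
        else []) i,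
        2 ≤ ((fun i => if i < m + 1 then f ((N2 m).C i) ++ f ((N2 m).C i) else []) i).count c := by
      intro i hi c hc
      simp only at hc ⊢
      split_ifs at hc ⊢
      · exact dbl _ c hc
      · simp at hc
    refine ⟨_, _, _, _, eT', eF', ?_, ?_⟩
    · rw [eT']
      exact cnt _ _ _ _ _ _ _ hgH hhh
    · rw [eF']
      exact cnt _ _ _ _ _ _ _ hgH hhh
  have R1 : ∀ o' : Bool, Kc τ m (p ++ (w0 τ m true o').flatMap f ++ q) ↔
      Kc τ m (p ++ (w0 τ m false o').flatMap f ++ q) := by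
    intro o'
    obtain ⟨G, H, eT, eF, cT, cF⟩ := FA o'
    have S := h3 (N2 m) m (m + 1) p (f 0) (f 1) (f 2) G H _ _ eT eF cT
    constructor
    · intro hK
      have hn := h4 τ m hτ o' f p q hK
      exact ⟨K0x p (f 0) (f 1) (f 2) G H (f 0) (f 1) (Or.inl ⟨rfl, rfl⟩) _ _ eT eF cT hK.1,
        S.1 hK.1.c2 hK.2 hn⟩
    · intro hK
      exact ⟨K0x p (f 0) (f 1) (f 2) G H (f 1) (f 0) (Or.inr ⟨rfl, rfl⟩) _ _ eF eT cF hK.1,
        S.2 hK.1.c2 hK.2⟩
  refine ⟨R1, ?_, ?_⟩
  · intro o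
    obtain ⟨P, F, G, H, eT, eF, cT, cF⟩ := FB o
    have S := h3 N1 m m P (f (N1.L m)) (f (N1.L (m + 1))) F G H _ _ eT eF cT
    constructor
    · intro hK
      have hn := h6 τ m hτ o f p q hK
      exact ⟨K0x P (f (N1.L m)) (f (N1.L (m + 1))) F G H (f (N1.L m)) (f (N1.L (m + 1)))
        (Or.inl ⟨rfl, rfl⟩) _ _ eT eF cT hK.1, S.1 hK.1.c1 hK.2 hn⟩
    · intro hK
      exact ⟨K0x P (f (N1.L m)) (f (N1.L (m + 1))) F G H (f (N1.L (m + 1))) (f (N1.L m))
        (Or.inr ⟨rfl, rfl⟩) _ _ eF eT cF hK.1, S.2 hK.1.c1 hK.2⟩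
  · obtain ⟨G, H, eT, eF, cT, cF⟩ := FA false
    have S := h3 N1 m m p (f 0) (f 1) (f 2) G H _ _ eT eF cT
    constructor
    · rintro ⟨hb, hc⟩
      have hn := h5 τ m hτ f p q hb hc
      exact ⟨⟨K0x p (f 0) (f 1) (f 2) G H (f 0) (f 1) (Or.inl ⟨rfl, rfl⟩) _ _ eT eF cT hb.1,
        S.1 hb.1.c1 hb.2 hn⟩, (R1 false).1 hc⟩
    · rintro ⟨hb, hc⟩
      exact ⟨⟨K0x p (f 0) (f 1) (f 2) G H (f 1) (f 0) (Or.inr ⟨rfl, rfl⟩) _ _ eF eT cF hb.1,
        S.2 hb.1.c1 hb.2⟩, (R1 false).2 hc⟩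

end Pool.Agent.MWGN.H88
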