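import Pool.Agent.MWGN.StmtsC

/-!
# Squad MWGN (problem MP_23468a_al), row FAA: `x^2zsz ≈ x^2zxsz` implies `FB`
-/

namespace Pool.Agent.MWGN.H88

open Pool.Agent.Helper14_MV Pool.Agent.Helper2_MV Pool.Agent.MWGN
open Pool.Agent.MWK (pre Gw)

theorem ctx' {β : FIC} (p q : List ℕ) {l l' : List ℕ} (h : RR β l l') :
    RR β (p ++ (l ++ q)) (p ++ (l' ++ q)) :=
  (RR.refl p).append (h.append (RR.refl q))

theorem bs_succ (L C : ℕ → List ℕ) (X : List ℕ) (s : ℕ → Bool) (j : ℕ) :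
    bs L C X s (j + 1) = bs L C X s j ++
      (L j ++ (C j ++ (C j ++ (if s j then X ++ X else [])))) := by
  unfold bs
  rw [List.range_succ, List.flatMap_append]
  simp

/-- one insertion -/
theorem stepA {β : FIC} (H : Gz β) (hA : A0 β) (P X L C Y R : List ℕ) :
    RR β (P ++ (X ++ (X ++ (L ++ (C ++ (C ++ (Y ++ (L ++ R))))))))
      (P ++ (X ++ (X ++ (L ++ (C ++ (C ++ (X ++ (X ++ (Y ++ (L ++ R)))))))))) := by
  have a0 : RR β [0, 0, 1, 2, 1] [0, 0, 1, 0, 2, 1] := hA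
  have a := a0.sub (fun c => if c = 0 then X else if c = 1 then L else C ++ (C ++ Y))
  have b := H.gw.gm.sub (fun c => if c = 0 then X else L)
  have c := H.c.sub (fun c => if c = 0 then X else C)
  have a1 : RR β (X ++ (X ++ (L ++ (C ++ (C ++ (Y ++ L))))))
      (X ++ (X ++ (L ++ (X ++ (C ++ (C ++ (Y ++ L))))))) := by simpa using a
  have b1 : RR β (X ++ (L ++ X)) (X ++ (L ++ (X ++ X))) := by simpa using b
  have c1 : RR β (X ++ (X ++ (C ++ C))) (C ++ (C ++ (X ++ X))) := by simpa using c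
  have a2 := ctx' P R a1
  have b2 := ctx' (P ++ X) (C ++ (C ++ (Y ++ (L ++ R)))) b1
  have c2 := ctx' (P ++ (X ++ (X ++ L))) (Y ++ (L ++ R)) c1
  simp only [List.append_assoc] at a2 b2 c2
  exact β.trans a2 (β.trans b2 c2)

theorem front (L C : ℕ → List ℕ) (X : List ℕ) (j : ℕ) :
    ∃ P, X ++ (X ++ bs L C X (fun _ => true) j) = P ++ (X ++ X) := by
  cases j with
  | zero => exact ⟨[], by simp [bs]⟩
  | succ j =>
    refine ⟨X ++ (X ++ (bs L C X (fun _ => true) j ++ (L j ++ (C j ++ C j)))), ?_⟩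
    rw [bs_succ]
    simp

theorem fill {β : FIC} (H : Gz β) (hA : A0 β) (X : List ℕ) (L C : ℕ → List ℕ) : ∀ (j : ℕ)
    (R : List ℕ), (∀ i < j, ∃ Y R2, R = Y ++ (L i ++ R2)) →
    RR β (X ++ (X ++ (bs L C X (fun _ => false) j ++ R)))
      (X ++ (X ++ (bs L C X (fun _ => true) j ++ R))) := by
  intro j
  induction j with
  | zero => intro R _; exact RR.refl _
  | succ j ih =>
    intro R hR
    have h1 := ih (L j ++ (C j ++ (C j ++ R))) (by
      intro i hi
      obtain ⟨Y, R2, rfl⟩ := hR i (by omega)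
      exact ⟨L j ++ (C j ++ (C j ++ Y)), R2, by simp⟩)
    obtain ⟨P, hP⟩ := front L C X j
    obtain ⟨Y, R2, rfl⟩ := hR j (by omega)
    have h2 := stepA H hA P X (L j) (C j) Y R2
    have e1 : X ++ (X ++ (bs L C X (fun _ => false) (j + 1) ++ (Y ++ (L j ++ R2)))) =
        X ++ (X ++ (bs L C X (fun _ => false) j ++ (L j ++ (C j ++ (C j ++ (Y ++ (L j ++ R2))))))) := by
      rw [bs_succ]
      simp
    have e2 : X ++ (X ++ (bs L C X (fun _ => true) j ++
        (L j ++ (C j ++ (C j ++ (Y ++ (L j ++ R2))))))) =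
        P ++ (X ++ (X ++ (L j ++ (C j ++ (C j ++ (Y ++ (L j ++ R2))))))) := by
      have := congrArg (fun l => l ++ (L j ++ (C j ++ (C j ++ (Y ++ (L j ++ R2)))))) hP
      simpa using this
    have e3 : X ++ (X ++ (bs L C X (fun _ => true) (j + 1) ++ (Y ++ (L j ++ R2)))) =
        P ++ (X ++ (X ++ (L j ++ (C j ++ (C j ++ (X ++ (X ++ (Y ++ (L j ++ R2))))))))) := by
      rw [bs_succ]
      have := congrArg (fun l => l ++ (L j ++ (C j ++ (C j ++ (X ++ (X ++ (Y ++ (L j ++ R2))))))))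
        hP
      simpa using this
    rw [e1, e3]
    rw [e2] at h1
    exact β.trans h1 h2

theorem faa : FaaStmt := by
  intro β H hA r τ hτ X B S L C
  unfold ws
  apply fill H hA X L C r
  intro i hi
  have him : i ∈ τ := (hτ.2 i).2 (by omega)
  obtain ⟨a, b, rfl⟩ := List.append_of_mem him
  refine ⟨L r ++ (X ++ (B ++ (a.flatMap (fun i => S i ++ L i) ++ S i))),
    b.flatMap (fun i => S i ++ L i), ?_⟩
  simp

end Pool.Agent.MWGN.H88
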